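import Pool.Agent.MP_ed9623_an.H77.SpecX

/-! Invariance of the energy density and of its radial derivative under rotations. -/

open MeasureTheory Filter Topology Set
open scoped ContDiff

namespace Pool.Agent.MP_ed9623_an.H77

open H64

namespace RotA

variable {O : Set P} {e : P} {f g f' g' φ m : P → ℝ}

theorem li_int (hf : LocallyIntegrable f volume) (hφ : Test O φ) :
    Integrable fun x => f x * φ x :=
  hf.integrable_smul_right_of_hasCompactSupport hφ.ct hφ.2.1

theorem li_mul (hf : LocallyIntegrable f volume) (hm : ContDiff ℝ ∞ m) :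
    LocallyIntegrable (fun x => m x * f x) volume := hf.continuous_mul hm.continuous

theorem wd_add (h : WD O e f g) (h' : WD O e f' g') (hf : LocallyIntegrable f volume)
    (hg : LocallyIntegrable g volume) (hf' : LocallyIntegrable f' volume)
    (hg' : LocallyIntegrable g' volume) :
    WD O e (fun p => f p + f' p) fun p => g p + g' p := fun φ hφ => by
  simp only [add_mul]
  rw [integral_add (li_int hf (hφ.pd e)) (li_int hf' (hφ.pd e)),
    integral_add (li_int hg hφ) (li_int hg' hφ), h φ hφ, h' φ hφ, neg_add]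

theorem wd_van (hO : IsOpen O) (h : WD O e f g) (hg : LocallyIntegrable g volume) (hf : Van O f) :
    Van O g :=
  van_of_int hO hg fun φ hφ => by
    rw [← neg_eq_zero, ← h φ hφ, int_test_congr (g := fun _ => 0) (fun _ => (hφ.pd e).off) hf]
    simp

/-- Testing with a multiple of a test function. -/
theorem wd_test (h : WD O e f g) (hf : LocallyIntegrable f volume) (hm : ContDiff ℝ ∞ m)
    (hφ : Test O φ) : ∫ x, f x * (m x * pd e φ x) =
      -(∫ x, g x * (m x * φ x)) - ∫ x, f x * (pd e m x * φ x) := by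
  rw [← h _ (hφ.smul hm), eq_sub_iff_add_eq,
    ← integral_add (li_int hf ((hφ.pd e).smul hm)) (li_int hf (hφ.smul (sm_pd hm e)))]
  refine integral_congr_ae (Eventually.of_forall fun x => ?_)
  simp only [pd_mul e (sm_diff hm x) (sm_diff hφ.1 x)]
  ring

/-- The angular derivative. -/
noncomputable def Da (c : P) (φ : P → ℝ) : P → ℝ :=
  fun x => Xc c 0 x * pd (ee 1) φ x - Xc c 1 x * pd (ee 0) φ x

/-- The radial derivative. -/
noncomputable def Dr (c : P) (φ : P → ℝ) : P → ℝ :=
  fun x => Xc c 0 x * pd (ee 0) φ x + Xc c 1 x * pd (ee 1) φ x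

theorem test_Da (c : P) (hφ : Test O φ) : Test O (Da c φ) :=
  ((hφ.pd _).smul (sm_Xc c 0)).sub ((hφ.pd _).smul (sm_Xc c 1))

theorem test_Dr (c : P) (hφ : Test O φ) : Test O (Dr c φ) :=
  ((hφ.pd _).smul (sm_Xc c 0)).add ((hφ.pd _).smul (sm_Xc c 1))

theorem Dr_Da (c : P) (hφ : ContDiff ℝ ∞ φ) (x : P) : Dr c (Da c φ) x = Da c (Dr c φ) x := by
  have d : ∀ i l, DifferentiableAt ℝ (fun y => Xc c i y * pd (ee l) φ y) x := fun i l =>
    sm_diff ((sm_Xc c i).mul (sm_pd hφ _)) x
  have k : ∀ i l n, pd (ee n) (fun y => Xc c i y * pd (ee l) φ y) x =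
      (if i = n then 1 else 0) * pd (ee l) φ x + Xc c i x * pd (ee n) (pd (ee l) φ) x :=
    fun i l n => by rw [pd_mul _ (sm_diff (sm_Xc c i) x) (sm_diff (sm_pd hφ _) x), pd_Xc]
  unfold Dr Da
  rw [pd_sub _ (d _ _) (d _ _), pd_sub _ (d _ _) (d _ _), pd_add _ (d _ _) (d _ _),
    pd_add _ (d _ _) (d _ _)]
  simp only [k, pd_comm_sm hφ (ee 0) (ee 1)]
  simp
  ring

theorem inv (hTh : ThS) (hI : RotIS) {c : P} {r R : ℝ} (hf : LocallyIntegrable f volume)
    (h : ∀ φ, Test (An c r R) φ → ∫ x, f x * Da c φ x = 0) {τ : P}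
    (hτ : τ.1 ^ 2 + τ.2 ^ 2 = 1) : ∀ᵐ x, x ∈ An c r R → f (Rt c τ x) = f x := by
  have hA := isOpen_An c r R
  have hm : Integrable ((An c r R).indicator f) :=
    (integrable_indicator_iff hA.measurableSet).2
      ((hf.integrableOn_isCompact (isCompact_disc c R)).mono_set fun x hx => hx.2.le)
  have hτ' : (τ.1, -τ.2).1 ^ 2 + (τ.1, -τ.2).2 ^ 2 = 1 := by simpa using hτ
  have mp : ∀ σ : P, σ.1 ^ 2 + σ.2 ^ 2 = 1 → MeasurePreserving (Rt c σ) volume volume :=
    fun σ hσ => (hTh c σ _ hσ Gam.zero).1.comp (measurePreserving_sub_right volume c)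
  have hm' : Integrable fun x => (An c r R).indicator f (Rt c τ x) :=
    (mp τ hτ).integrable_comp_of_integrable hm
  have key := van_of_int hA (hm'.sub hm).locallyIntegrable fun φ hφ => by
    have h1 := (hI c r R _ hm (fun ψ hψ => by
      rw [← h ψ hψ]
      exact int_test_congr (fun _ => (test_Da c hψ).off)
        (Eventually.of_forall fun x hx => indicator_of_mem hx f)) _ hτ' φ hφ).2
    have i1 := li_int hm'.locallyIntegrable hφ
    have h2 := integral_map (mp _ hτ').aemeasurable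
      (f := fun x => (An c r R).indicator f (Rt c τ x) * φ x)
      (by rw [(mp _ hτ').map_eq]; exact i1.aestronglyMeasurable)
    have h3 : ∀ x, Rt c τ (Rt c (τ.1, -τ.2) x) = x := fun x => by simpa using Rt_Rt hτ' c x
    rw [(mp _ hτ').map_eq] at h2
    simp only [h3] at h2
    simp only [Pi.sub_apply, sub_mul]
    rw [integral_sub i1 (li_int hm.locallyIntegrable hφ), h2, h1, sub_self]
  filter_upwards [key] with x hx hxA
  have h4 : Rt c τ x ∈ An c r R := by
    simpa only [An, mem_ofPred_eq, qc_Rt hτ] using hxA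
  have := hx hxA
  rwa [Pi.sub_apply, indicator_of_mem hxA, indicator_of_mem h4, sub_eq_zero] at this

end RotA

open RotA in
theorem rowRotA : OfRotA := by
  intro hP hTh hI c r R w dw hw hrd τ hτ
  have hA := isOpen_An c r R
  have mw := fun j => (H1O.zero_iff.1 (hw.h1 j)).1
  have md := fun j i => ((H1O.zero_iff.1 (hw.h1 j)).2 i).1
  have wd := fun j i => ((H1O.zero_iff.1 (hw.h1 j)).2 i).2
  have lw := fun j (m : P → ℝ) (hm : ContDiff ℝ ∞ m) => li_mul (mw j).loc hm
  have ld := fun j i (m : P → ℝ) (hm : ContDiff ℝ ∞ m) => li_mul (md j i).loc hm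
  have X := sm_Xc c
  have hE : ∀ i, Van (An c r R) fun p => Xc c 0 p * dw 0 i p + pd (ee i) (Xc c 0) p * w 0 p +
      (Xc c 1 p * dw 1 i p + pd (ee i) (Xc c 1) p * w 1 p) := fun i => by
    have l := fun j => (ld j i _ (X j)).add (lw j _ (sm_pd (X j) (ee i)))
    refine wd_van hA ((wd_add ((wd 0 i).smul (mw 0) (md 0 i) (X 0))
      ((wd 1 i).smul (mw 1) (md 1 i) (X 1)) (lw 0 _ (X 0)) (l 0) (lw 1 _ (X 1)) (l 1)).mono
      (subset_univ _)) ((l 0).add (l 1)) (hrd.congr (Eventually.of_forall fun p => ?_))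
    simp only [rd, Fin.sum_univ_two, mul_comm]
  let G : Fin 2 → P → ℝ := fun i p => dw 0 i p * w 0 p + w 0 p * dw 0 i p +
    (dw 1 i p * w 1 p + w 1 p * dw 1 i p)
  have iG : ∀ j i, Integrable fun p => dw j i p * w j p + w j p * dw j i p := fun j i =>
    ((md j i).int_mul (mw j)).add ((mw j).int_mul (md j i))
  have lG : ∀ i, LocallyIntegrable (G i) volume := fun i =>
    ((iG 0 i).add (iG 1 i)).locallyIntegrable
  have em : mm w = fun p => w 0 p * w 0 p + w 1 p * w 1 p := funext fun p => by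
    simp only [mm, Fin.sum_univ_two, sq]
  have lm : LocallyIntegrable (mm w) volume := by
    rw [em]
    exact (((mw 0).int_mul (mw 0)).add ((mw 1).int_mul (mw 1))).locallyIntegrable
  have wm : ∀ i, WD univ (ee i) (mm w) (G i) := fun i => by
    have k := fun j => hP.1 univ (ee i) _ _ _ _ isOpen_univ (mw j) (md j i) (mw j) (md j i)
      (wd j i) (wd j i)
    rw [em]
    exact wd_add (k 0) (k 1) ((mw 0).int_mul (mw 0)).locallyIntegrable (iG 0 i).locallyIntegrable
      ((mw 1).int_mul (mw 1)).locallyIntegrable (iG 1 i).locallyIntegrable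
  have hT : ∀ᵐ p, p ∈ An c r R → G 1 p * Xc c 0 p - G 0 p * Xc c 1 p = 0 := by
    filter_upwards [hE 0, hE 1, hrd, hw.dv] with p e0 e1 e2 e3 hp
    have e0 := e0 hp
    have e1 := e1 hp
    have e2 := e2 hp
    have hq : Xc c 0 p ^ 2 + Xc c 1 p ^ 2 ≠ 0 := by
      have := hp.1
      rw [qc_eq, Fin.sum_univ_two] at this
      nlinarith [sq_nonneg r]
    simp only [pd_Xc, rd, Fin.sum_univ_two] at e0 e1 e2
    simp only [Fin.isValue, ↓reduceIte, one_mul, one_ne_zero, zero_ne_one, zero_mul,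
      add_zero] at e0 e1
    refine mul_left_cancel₀ hq ?_
    simp only [G]
    generalize Xc c 0 p = a at *
    generalize Xc c 1 p = b at *
    linear_combination 2 * (a * w 1 p - b * w 0 p) * (a ^ 2 + b ^ 2) * e3
      - 2 * (a * w 1 p - b * w 0 p) * a * e0 - 2 * (a * w 1 p - b * w 0 p) * b * e1
      + 2 * ((a * w 1 p - b * w 0 p) + a * (a * dw 0 1 p - b * dw 0 0 p)
        + b * (a * dw 1 1 p - b * dw 1 0 p)) * e2
  have h1 : ∀ φ, Test (An c r R) φ → ∫ x, mm w x * Da c φ x = 0 := fun φ hφ => by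
    have a := wd_test (wm 1) lm (X 0) hφ.top
    have b := wd_test (wm 0) lm (X 1) hφ.top
    have z := int_test_congr (g := fun _ => 0) (fun _ => hφ.off) hT
    simp only [pd_Xc] at a b
    simp only [Da, mul_sub]
    rw [integral_sub (li_int lm ((hφ.pd _).smul (X 0))) (li_int lm ((hφ.pd _).smul (X 1))), a, b]
    simp only [sub_mul, mul_assoc] at z
    rw [integral_sub (li_int (lG 1) (hφ.smul (X 0))) (li_int (lG 0) (hφ.smul (X 1)))] at z
    simp at z ⊢
    linarith
  have eP : Ph c w dw = fun p => (1 / 2 : ℝ) * (Xc c 0 p * G 0 p + Xc c 1 p * G 1 p) :=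
    funext fun p => by
      simp only [Ph, G, Fin.sum_univ_two]
      ring
  have lP : LocallyIntegrable (Ph c w dw) volume := by
    rw [eP]
    exact li_mul ((li_mul (lG 0) (X 0)).add (li_mul (lG 1) (X 1))) contDiff_const
  refine ⟨inv hTh hI lm h1 hτ, inv hTh hI lP (fun φ hφ => ?_) hτ⟩
  have hψ := test_Da c hφ
  have a := wd_test (wm 0) lm (X 0) hψ.top
  have b := wd_test (wm 1) lm (X 1) hψ.top
  have z := h1 _ (test_Dr c hφ)
  simp only [← Dr_Da c hφ.1, Dr, mul_add] at z
  rw [integral_add (li_int lm ((hψ.pd _).smul (X 0))) (li_int lm ((hψ.pd _).smul (X 1))), a, b] at z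
  simp only [pd_Xc, ↓reduceIte, one_mul, h1 φ hφ] at z
  have y : ∫ x, Ph c w dw x * Da c φ x = (1 / 2 : ℝ) *
      ((∫ x, G 0 x * (Xc c 0 x * Da c φ x)) + ∫ x, G 1 x * (Xc c 1 x * Da c φ x)) := by
    rw [← integral_add (li_int (lG 0) (hψ.smul (X 0))) (li_int (lG 1) (hψ.smul (X 1))),
      ← integral_const_mul, eP]
    exact integral_congr_ae (Eventually.of_forall fun x => by simp only; ring)
  linarith

end Pool.Agent.MP_ed9623_an.H77
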